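import Pool.Agent.H586.AF.D

/-!
# Project AF, task AG-EB: bounds of the lattice energy for closed subgroups of `U(N)`
-/

set_option autoImplicit false
set_option linter.unusedVariables false

open MeasureTheory Matrix Finset Filter Topology
open scoped Matrix.Norms.Frobenius

namespace Pool.Agent.H28.AG

open Pool.Agent.H586.AF hiding pe bg wil act ZZ en sz sh c12 gb S_GF S_HB S_EB S_TL S_PB S_EX S_E3 S_M3 S_LP S_FN
open Pool.Agent.H586.AF.GG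

set_option maxHeartbeats 4000000

variable {N : ℕ}

theorem norm_sq_eq (A : Mt N) : ‖A‖ ^ 2 = (trace (Aᴴ * A)).re := by
  have h1 : ‖A‖ = Real.sqrt (∑ i, ∑ j, ‖A i j‖ ^ 2) := by
    rw [Matrix.frobenius_norm_def, Real.sqrt_eq_rpow]
    simp only [Real.rpow_two]
  rw [h1, Real.sq_sqrt (sum_nonneg fun _ _ => sum_nonneg fun _ _ => sq_nonneg _), Matrix.trace,
    Complex.re_sum, sum_comm]
  refine sum_congr rfl fun j _ => ?_
  rw [Matrix.diag_apply, Matrix.mul_apply, Complex.re_sum]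
  refine sum_congr rfl fun i _ => ?_
  rw [Matrix.conjTranspose_apply, Complex.star_def, ← Complex.normSq_eq_conj_mul_self,
    Complex.ofReal_re, Complex.normSq_eq_norm_sq]

/-- unitary matrices -/
def Un (a : Mt N) : Prop := aᴴ * a = 1 ∧ a * aᴴ = 1

theorem un_one : Un (1 : Mt N) := by
  constructor <;> simp

theorem un_mt {G : Subgroup (UU N)} (g : G) : Un (GG.mt g) := by
  have h := (g : UU N).2
  rw [Matrix.mem_unitaryGroup_iff] at h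
  have h' := (g : UU N).2
  rw [Matrix.mem_unitaryGroup_iff'] at h'
  exact ⟨h', h⟩

theorem un_mul {a b : Mt N} (ha : Un a) (hb : Un b) : Un (a * b) := by
  constructor
  · rw [conjTranspose_mul]
    calc bᴴ * aᴴ * (a * b) = bᴴ * (aᴴ * a) * b := by noncomm_ring
      _ = 1 := by rw [ha.1, mul_one, hb.1]
  · rw [conjTranspose_mul]
    calc a * b * (bᴴ * aᴴ) = a * (b * bᴴ) * aᴴ := by noncomm_ring
      _ = 1 := by rw [hb.2, mul_one, ha.2]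

theorem norm_un_sq {a : Mt N} (ha : Un a) : ‖a‖ ^ 2 = N := by
  rw [norm_sq_eq, ha.1, trace_one, Fintype.card_fin]
  simp

theorem norm_mul_un (A : Mt N) {b : Mt N} (hb : Un b) : ‖A * b‖ = ‖A‖ := by
  have h : ‖A * b‖ ^ 2 = ‖A‖ ^ 2 := by
    rw [norm_sq_eq, norm_sq_eq, conjTranspose_mul]
    congr 1
    calc trace (bᴴ * Aᴴ * (A * b)) = trace (bᴴ * (Aᴴ * A * b)) := by
          rw [← mul_assoc, ← mul_assoc, ← mul_assoc]
      _ = trace (Aᴴ * A * b * bᴴ) := by rw [trace_mul_comm]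
      _ = trace (Aᴴ * A) := by rw [mul_assoc, hb.2, mul_one]
  exact (pow_left_inj₀ (norm_nonneg _) (norm_nonneg _) two_ne_zero).1 h

theorem pe_eq {a b c d : Mt N} (ha : Un a) (hb : Un b) (hc : Un c) (hd : Un d) :
    pe a b c d = (1 / 2) * ‖a * b - d * c‖ ^ 2 := by
  have hab := un_mul ha hb
  have hdc := un_mul hd hc
  have h1 : (trace ((a * b)ᴴ * (d * c))).re = (trace ((d * c)ᴴ * (a * b))).re := by
    have : (a * b)ᴴ * (d * c) = ((d * c)ᴴ * (a * b))ᴴ := by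
      rw [conjTranspose_mul ((d * c)ᴴ) (a * b), conjTranspose_conjTranspose]
    rw [this, trace_conjTranspose]
    simp
  have h2 : trace ((d * c)ᴴ * (a * b)) = trace (a * b * cᴴ * dᴴ) := by
    rw [trace_mul_comm, conjTranspose_mul, ← mul_assoc]
  have h3 : (a * b - d * c)ᴴ * (a * b - d * c) =
      (a * b)ᴴ * (a * b) - (a * b)ᴴ * (d * c) - (d * c)ᴴ * (a * b) + (d * c)ᴴ * (d * c) := by
    rw [conjTranspose_sub, sub_mul, mul_sub, mul_sub]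
    abel
  rw [norm_sq_eq, h3, hab.1, hdc.1]
  simp only [trace_add, trace_sub, Complex.add_re, Complex.sub_re]
  rw [h1, h2]
  unfold pe
  rw [trace_sub, Complex.sub_re]
  ring

theorem pe_nonneg {a b c d : Mt N} (ha : Un a) (hb : Un b) (hc : Un c) (hd : Un d) :
    0 ≤ pe a b c d := by
  rw [pe_eq ha hb hc hd]
  positivity

theorem pe_le {a b c d : Mt N} (ha : Un a) (hb : Un b) (hc : Un c) (hd : Un d) {s : ℝ}
    (ha1 : ‖a - 1‖ ≤ s) (hb1 : ‖b - 1‖ ≤ s) (hc1 : ‖c - 1‖ ≤ s) (hd1 : ‖d - 1‖ ≤ s) :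
    pe a b c d ≤ 8 * s ^ 2 := by
  rw [pe_eq ha hb hc hd]
  have e : a * b - d * c = ((a - 1) * b + (b - 1)) - ((d - 1) * c + (c - 1)) := by
    rw [sub_mul, sub_mul, one_mul, one_mul]
    abel
  have h1 : ‖(a - 1) * b + (b - 1)‖ ≤ s + s := by
    refine (norm_add_le _ _).trans (add_le_add ?_ hb1)
    rw [norm_mul_un _ hb]
    exact ha1
  have h2 : ‖(d - 1) * c + (c - 1)‖ ≤ s + s := by
    refine (norm_add_le _ _).trans (add_le_add ?_ hc1)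
    rw [norm_mul_un _ hc]
    exact hd1
  have h3 : ‖a * b - d * c‖ ≤ 4 * s := by
    rw [e]
    refine (norm_sub_le _ _).trans ?_
    linarith
  calc (1 / 2) * ‖a * b - d * c‖ ^ 2 ≤ (1 / 2) * (4 * s) ^ 2 :=
        mul_le_mul_of_nonneg_left (pow_le_pow_left₀ (norm_nonneg _) h3 2) (by norm_num)
    _ = 8 * s ^ 2 := by ring

theorem pe_vert {a c : Mt N} (ha : Un a) (hc : Un c) : pe a 1 c 1 = (1 / 2) * ‖c - a‖ ^ 2 := by
  rw [pe_eq ha un_one hc un_one, mul_one, one_mul, norm_sub_rev]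

theorem bg_zero (X : Mt N) (x : ℝ) : bg X 0 x = 1 := by
  unfold bg
  rw [zero_mul, zero_smul, NormedSpace.exp_zero]

/-! ### the extended fields -/

variable {G : Subgroup (UU N)}

theorem ex1_un (L : ℕ) (u : I1 L → G) (x y z h : ℕ) : Un (ex1 L (fun i => GG.mt (u i)) 1 x y z h) := by
  unfold ex1
  split_ifs
  · exact un_mt _
  · exact un_one

theorem ex2_un (L : ℕ) (u : I2 L → G) (x y z h : ℕ) : Un (ex2 L (fun i => GG.mt (u i)) 1 x y z h) := by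
  unfold ex2
  split_ifs
  · exact un_mt _
  · exact un_one

theorem ex3_un (L : ℕ) (u : I3 L → G) (x y z h : ℕ) : Un (ex3 L (fun i => GG.mt (u i)) 1 x y z h) := by
  unfold ex3
  split_ifs
  · exact un_mt _
  · exact un_one

theorem sz_nonneg {L : ℕ} (σ : IH L → G) : 0 ≤ GG.sz σ := Finset.sum_nonneg fun _ _ => norm_nonneg _

theorem le_sz {L : ℕ} (σ : IH L → G) (l : IH L) : ‖GG.mt (σ l) - 1‖ ≤ GG.sz σ :=
  Finset.single_le_sum (f := fun l => ‖GG.mt (σ l) - 1‖) (fun _ _ => norm_nonneg _) (mem_univ l)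

theorem ex1_sz {L : ℕ} (σ : IH L → G) (x y z h : ℕ) :
    ‖ex1 L (fun i => GG.mt (σ (Sum.inl i))) 1 x y z h - 1‖ ≤ GG.sz σ := by
  unfold ex1
  split_ifs
  · exact le_sz σ _
  · rw [sub_self, norm_zero]
    exact sz_nonneg σ

theorem ex2_sz {L : ℕ} (σ : IH L → G) (x y z h : ℕ) :
    ‖ex2 L (fun i => GG.mt (σ (Sum.inr (Sum.inl i)))) 1 x y z h - 1‖ ≤ GG.sz σ := by
  unfold ex2
  split_ifs
  · exact le_sz σ _
  · rw [sub_self, norm_zero]
    exact sz_nonneg σ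

theorem ex3_sz {L : ℕ} (σ : IH L → G) (x y z h : ℕ) :
    ‖ex3 L (fun i => GG.mt (σ (Sum.inr (Sum.inr i)))) 1 x y z h - 1‖ ≤ GG.sz σ := by
  unfold ex3
  split_ifs
  · exact le_sz σ _
  · rw [sub_self, norm_zero]
    exact sz_nonneg σ

/-- the energy at `θ = 0` -/
theorem en_zero (X : Mt N) (L : ℕ) (σ : IH L → G) : GG.en X L 0 σ =
    GG.wil L (ex1 L (fun i => GG.mt (σ (Sum.inl i))) 1) (ex2 L (fun i => GG.mt (σ (Sum.inr (Sum.inl i)))) 1)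
      (ex3 L (fun i => GG.mt (σ (Sum.inr (Sum.inr i)))) 1) (fun _ _ _ _ => 1) := by
  unfold GG.en
  simp only [bg_zero, one_mul, mul_one]

/-! ### sums over plaquettes -/

theorem quad_nonneg {s1 s2 s3 s4 : Finset ℕ} {F : ℕ → ℕ → ℕ → ℕ → ℝ} (hF : ∀ x y z h, 0 ≤ F x y z h) :
    0 ≤ ∑ x ∈ s1, ∑ y ∈ s2, ∑ z ∈ s3, ∑ h ∈ s4, F x y z h :=
  sum_nonneg fun x _ => sum_nonneg fun y _ => sum_nonneg fun z _ => sum_nonneg fun h _ => hF x y z h

theorem quad_le {s1 s2 s3 s4 : Finset ℕ} {L : ℕ} (h1 : s1.card ≤ L) (h2 : s2.card ≤ L) (h3 : s3.card ≤ L)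
    (h4 : s4.card ≤ L) {F : ℕ → ℕ → ℕ → ℕ → ℝ} {M : ℝ} (hM : 0 ≤ M) (hF : ∀ x y z h, F x y z h ≤ M) :
    ∑ x ∈ s1, ∑ y ∈ s2, ∑ z ∈ s3, ∑ h ∈ s4, F x y z h ≤ (L : ℝ) ^ 4 * M := by
  have key : ∀ (s : Finset ℕ) (f : ℕ → ℝ) (K : ℝ), s.card ≤ L → 0 ≤ K → (∀ x, f x ≤ K) → ∑ x ∈ s, f x ≤ L * K := by
    intro s f K hs hK hf
    calc ∑ x ∈ s, f x ≤ ∑ _x ∈ s, K := sum_le_sum fun x _ => hf x
      _ = s.card * K := by rw [sum_const, nsmul_eq_mul]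
      _ ≤ L * K := mul_le_mul_of_nonneg_right (by exact_mod_cast hs) hK
  have hL : (0 : ℝ) ≤ L := Nat.cast_nonneg L
  have := key s1 (fun x => ∑ y ∈ s2, ∑ z ∈ s3, ∑ h ∈ s4, F x y z h) (L * (L * (L * M))) h1 (by positivity)
    fun x => key s2 _ _ h2 (by positivity) fun y => key s3 _ _ h3 (by positivity) fun z =>
      key s4 _ _ h4 hM fun h => hF x y z h
  calc _ ≤ _ := this
    _ = _ := by ring

theorem s14_two (L : ℕ) (F : ℕ → ℕ → ℕ → ℕ → ℝ) : s14 L (fun x y z h => 2 * F x y z h) = 2 * s14 L F := by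
  unfold s14
  simp only [mul_sum]

theorem s24_two (L : ℕ) (F : ℕ → ℕ → ℕ → ℕ → ℝ) : s24 L (fun x y z h => 2 * F x y z h) = 2 * s24 L F := by
  unfold s24
  simp only [mul_sum]

theorem s34_two (L : ℕ) (F : ℕ → ℕ → ℕ → ℕ → ℝ) : s34 L (fun x y z h => 2 * F x y z h) = 2 * s34 L F := by
  unfold s34
  simp only [mul_sum]

theorem sum_fin_pred {L : ℕ} (g : ℕ → ℝ) : ∑ y : Fin (L - 1), g (y + 1) = ∑ y ∈ Ico 1 L, g y := by
  rw [Finset.sum_Ico_eq_sum_range, Finset.sum_range]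
  exact sum_congr rfl fun y _ => by rw [add_comm]

/-- the telescoping bound along a column -/
theorem column {L : ℕ} (U : ℕ → Mt N) (h0 : U 0 = 1) {k : ℕ} (hk : k ≤ L) :
    ‖U k - 1‖ ^ 2 ≤ L * ∑ h ∈ range L, ‖U (h + 1) - U h‖ ^ 2 := by
  have h1 : U k - 1 = ∑ h ∈ range k, (U (h + 1) - U h) := by
    rw [Finset.sum_range_sub, h0]
  have h2 : ‖U k - 1‖ ≤ ∑ h ∈ range k, ‖U (h + 1) - U h‖ := by
    rw [h1]
    exact norm_sum_le _ _
  have h3 : (∑ h ∈ range k, ‖U (h + 1) - U h‖) ^ 2 ≤ k * ∑ h ∈ range k, ‖U (h + 1) - U h‖ ^ 2 := by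
    have := sq_sum_le_card_mul_sum_sq (s := range k) (f := fun h => ‖U (h + 1) - U h‖)
    rwa [card_range] at this
  calc ‖U k - 1‖ ^ 2 ≤ (∑ h ∈ range k, ‖U (h + 1) - U h‖) ^ 2 := pow_le_pow_left₀ (norm_nonneg _) h2 2
    _ ≤ k * ∑ h ∈ range k, ‖U (h + 1) - U h‖ ^ 2 := h3
    _ ≤ L * ∑ h ∈ range L, ‖U (h + 1) - U h‖ ^ 2 := by
        apply mul_le_mul (by exact_mod_cast hk) _ (sum_nonneg fun _ _ => sq_nonneg _) (Nat.cast_nonneg _)
        exact sum_le_sum_of_subset_of_nonneg (range_subset_range.2 hk) fun _ _ _ => sq_nonneg _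

theorem ex1_val {R : Type} (L : ℕ) (u : I1 L → R) (w : R) (i : I1 L) :
    ex1 L u w i.1 (i.2.1 + 1) (i.2.2.1 + 1) (i.2.2.2 + 1) = u i := by
  unfold ex1
  rw [dif_pos ⟨⟨i.1.2, i.2.1.2, i.2.2.1.2, i.2.2.2.2⟩, Nat.le_add_left 1 _, Nat.le_add_left 1 _, Nat.le_add_left 1 _⟩]
  rfl

theorem ex2_val {R : Type} (L : ℕ) (u : I2 L → R) (w : R) (i : I2 L) :
    ex2 L u w (i.1 + 1) i.2.1 (i.2.2.1 + 1) (i.2.2.2 + 1) = u i := by
  unfold ex2
  rw [dif_pos ⟨⟨i.1.2, i.2.1.2, i.2.2.1.2, i.2.2.2.2⟩, Nat.le_add_left 1 _, Nat.le_add_left 1 _, Nat.le_add_left 1 _⟩]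
  rfl

theorem ex3_val {R : Type} (L : ℕ) (u : I3 L → R) (w : R) (i : I3 L) :
    ex3 L u w (i.1 + 1) (i.2.1 + 1) i.2.2.1 (i.2.2.2 + 1) = u i := by
  unfold ex3
  rw [dif_pos ⟨⟨i.1.2, i.2.1.2, i.2.2.1.2, i.2.2.2.2⟩, Nat.le_add_left 1 _, Nat.le_add_left 1 _, Nat.le_add_left 1 _⟩]
  rfl

theorem ex1_bot {R : Type} (L : ℕ) (u : I1 L → R) (w : R) (x y z : ℕ) : ex1 L u w x y z 0 = w := by
  unfold ex1
  rw [dif_neg]
  rintro ⟨-, -, -, h⟩
  omega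

theorem ex2_bot {R : Type} (L : ℕ) (u : I2 L → R) (w : R) (x y z : ℕ) : ex2 L u w x y z 0 = w := by
  unfold ex2
  rw [dif_neg]
  rintro ⟨-, -, -, h⟩
  omega

theorem ex3_bot {R : Type} (L : ℕ) (u : I3 L → R) (w : R) (x y z : ℕ) : ex3 L u w x y z 0 = w := by
  unfold ex3
  rw [dif_neg]
  rintro ⟨-, -, -, h⟩
  omega

theorem vert1 (L : ℕ) (u : I1 L → Mt N) :
    ∑ i, ‖u i - 1‖ ^ 2 ≤ (L : ℝ) ^ 2 * s14 L (fun x y z h =>
      ‖ex1 L u 1 x y z (h + 1) - ex1 L u 1 x y z h‖ ^ 2) := by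
  set U := ex1 L u 1 with hU
  have h1 : ∀ i : I1 L, ‖u i - 1‖ ^ 2 ≤ L * ∑ h ∈ range L,
      ‖U i.1 (i.2.1 + 1) (i.2.2.1 + 1) (h + 1) - U i.1 (i.2.1 + 1) (i.2.2.1 + 1) h‖ ^ 2 := by
    intro i
    have h2 := column (L := L) (fun h => U i.1 (i.2.1 + 1) (i.2.2.1 + 1) h) (ex1_bot L _ 1 _ _ _)
      (k := i.2.2.2 + 1) i.2.2.2.2
    simp only [hU, ex1_val] at h2 ⊢
    exact h2
  refine (sum_le_sum fun i _ => h1 i).trans (le_of_eq ?_)
  rw [Fintype.sum_prod_type]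
  unfold s14
  rw [Finset.sum_range, mul_sum]
  refine sum_congr rfl fun x _ => ?_
  rw [Fintype.sum_prod_type, ← sum_fin_pred (L := L) (fun y => ∑ z ∈ Ico 1 L, ∑ h ∈ range L,
    ‖U x y z (h + 1) - U x y z h‖ ^ 2), mul_sum]
  refine sum_congr rfl fun y _ => ?_
  rw [Fintype.sum_prod_type, ← sum_fin_pred (L := L) (fun z => ∑ h ∈ range L,
    ‖U x (y + 1) z (h + 1) - U x (y + 1) z h‖ ^ 2), mul_sum]
  refine sum_congr rfl fun z _ => ?_
  dsimp only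
  rw [sum_const, card_univ, Fintype.card_fin, nsmul_eq_mul]
  ring

theorem vert2 (L : ℕ) (u : I2 L → Mt N) :
    ∑ i, ‖u i - 1‖ ^ 2 ≤ (L : ℝ) ^ 2 * s24 L (fun x y z h =>
      ‖ex2 L u 1 x y z (h + 1) - ex2 L u 1 x y z h‖ ^ 2) := by
  set U := ex2 L u 1 with hU
  have h1 : ∀ i : I2 L, ‖u i - 1‖ ^ 2 ≤ L * ∑ h ∈ range L,
      ‖U (i.1 + 1) i.2.1 (i.2.2.1 + 1) (h + 1) - U (i.1 + 1) i.2.1 (i.2.2.1 + 1) h‖ ^ 2 := by
    intro i
    have h2 := column (L := L) (fun h => U (i.1 + 1) i.2.1 (i.2.2.1 + 1) h) (ex2_bot L _ 1 _ _ _)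
      (k := i.2.2.2 + 1) i.2.2.2.2
    simp only [hU, ex2_val] at h2 ⊢
    exact h2
  refine (sum_le_sum fun i _ => h1 i).trans (le_of_eq ?_)
  rw [Fintype.sum_prod_type]
  unfold s24
  rw [← sum_fin_pred (L := L) (fun x => ∑ y ∈ range L, ∑ z ∈ Ico 1 L, ∑ h ∈ range L,
    ‖U x y z (h + 1) - U x y z h‖ ^ 2), mul_sum]
  refine sum_congr rfl fun x _ => ?_
  rw [Fintype.sum_prod_type, Finset.sum_range, mul_sum]
  refine sum_congr rfl fun y _ => ?_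
  rw [Fintype.sum_prod_type, ← sum_fin_pred (L := L) (fun z => ∑ h ∈ range L,
    ‖U (x + 1) y z (h + 1) - U (x + 1) y z h‖ ^ 2), mul_sum]
  refine sum_congr rfl fun z _ => ?_
  dsimp only
  rw [sum_const, card_univ, Fintype.card_fin, nsmul_eq_mul]
  ring

theorem vert3 (L : ℕ) (u : I3 L → Mt N) :
    ∑ i, ‖u i - 1‖ ^ 2 ≤ (L : ℝ) ^ 2 * s34 L (fun x y z h =>
      ‖ex3 L u 1 x y z (h + 1) - ex3 L u 1 x y z h‖ ^ 2) := by
  set U := ex3 L u 1 with hU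
  have h1 : ∀ i : I3 L, ‖u i - 1‖ ^ 2 ≤ L * ∑ h ∈ range L,
      ‖U (i.1 + 1) (i.2.1 + 1) i.2.2.1 (h + 1) - U (i.1 + 1) (i.2.1 + 1) i.2.2.1 h‖ ^ 2 := by
    intro i
    have h2 := column (L := L) (fun h => U (i.1 + 1) (i.2.1 + 1) i.2.2.1 h) (ex3_bot L _ 1 _ _ _)
      (k := i.2.2.2 + 1) i.2.2.2.2
    simp only [hU, ex3_val] at h2 ⊢
    exact h2
  refine (sum_le_sum fun i _ => h1 i).trans (le_of_eq ?_)
  rw [Fintype.sum_prod_type]
  unfold s34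
  rw [← sum_fin_pred (L := L) (fun x => ∑ y ∈ Ico 1 L, ∑ z ∈ range L, ∑ h ∈ range L,
    ‖U x y z (h + 1) - U x y z h‖ ^ 2), mul_sum]
  refine sum_congr rfl fun x _ => ?_
  rw [Fintype.sum_prod_type, ← sum_fin_pred (L := L) (fun y => ∑ z ∈ range L, ∑ h ∈ range L,
    ‖U (x + 1) y z (h + 1) - U (x + 1) y z h‖ ^ 2), mul_sum]
  refine sum_congr rfl fun y _ => ?_
  rw [Fintype.sum_prod_type, Finset.sum_range, mul_sum]
  refine sum_congr rfl fun z _ => ?_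
  dsimp only
  rw [sum_const, card_univ, Fintype.card_fin, nsmul_eq_mul]
  ring

/-! ### the cardinality -/

theorem card_IH (L : ℕ) : Fintype.card (IH L) ≤ 3 * L ^ 4 := by
  rw [Fintype.card_sum, Fintype.card_sum]
  simp only [Fintype.card_prod, Fintype.card_fin]
  have h : L - 1 ≤ L := Nat.sub_le _ _
  have a1 : L * ((L - 1) * ((L - 1) * L)) ≤ L * (L * (L * L)) :=
    Nat.mul_le_mul_left _ (Nat.mul_le_mul h (Nat.mul_le_mul_right _ h))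
  have a2 : (L - 1) * (L * ((L - 1) * L)) ≤ L * (L * (L * L)) :=
    Nat.mul_le_mul h (Nat.mul_le_mul_left _ (Nat.mul_le_mul_right _ h))
  have a3 : (L - 1) * ((L - 1) * (L * L)) ≤ L * (L * (L * L)) :=
    Nat.mul_le_mul h (Nat.mul_le_mul_right _ h)
  calc _ ≤ L * (L * (L * L)) + (L * (L * (L * L)) + L * (L * (L * L))) := by omega
    _ = 3 * L ^ 4 := by ring

/-! ### continuity -/

section cont
variable {Y : Type*} [TopologicalSpace Y]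

theorem cont_quad {s1 s2 s3 s4 : Finset ℕ} {F : Y → ℕ → ℕ → ℕ → ℕ → ℝ}
    (hF : ∀ x y z h, Continuous fun t => F t x y z h) :
    Continuous fun t => ∑ x ∈ s1, ∑ y ∈ s2, ∑ z ∈ s3, ∑ h ∈ s4, F t x y z h :=
  continuous_finsetSum _ fun x _ => continuous_finsetSum _ fun y _ => continuous_finsetSum _ fun z _ =>
    continuous_finsetSum _ fun h _ => hF x y z h

theorem cont_pe {a b c d : Y → Mt N} (ha : Continuous a) (hb : Continuous b) (hc : Continuous c)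
    (hd : Continuous d) : Continuous fun t => GG.pe (a t) (b t) (c t) (d t) := by
  unfold GG.pe
  have h1 : Continuous fun t => a t * b t * (c t)ᴴ * (d t)ᴴ :=
    ((ha.matrix_mul hb).matrix_mul hc.matrix_conjTranspose).matrix_mul hd.matrix_conjTranspose
  have h2 : Continuous fun t => 1 - a t * b t * (c t)ᴴ * (d t)ᴴ := continuous_const.sub h1
  exact Complex.continuous_re.comp h2.matrix_trace

theorem cont_wil (L : ℕ) {U1 U2 U3 U4 : Y → ℕ → ℕ → ℕ → ℕ → Mt N}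
    (h1 : ∀ x y z h, Continuous fun t => U1 t x y z h) (h2 : ∀ x y z h, Continuous fun t => U2 t x y z h)
    (h3 : ∀ x y z h, Continuous fun t => U3 t x y z h) (h4 : ∀ x y z h, Continuous fun t => U4 t x y z h) :
    Continuous fun t => GG.wil L (U1 t) (U2 t) (U3 t) (U4 t) := by
  unfold GG.wil s12 s13 s23 s14 s24 s34
  refine ((((Continuous.add (cont_quad fun x y z h => ?_) (cont_quad fun x y z h => ?_)).add
    (cont_quad fun x y z h => ?_)).add (cont_quad fun x y z h => ?_)).add (cont_quad fun x y z h => ?_)).add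
    (cont_quad fun x y z h => ?_)
  · exact cont_pe (h1 _ _ _ _) (h2 _ _ _ _) (h1 _ _ _ _) (h2 _ _ _ _)
  · exact cont_pe (h1 _ _ _ _) (h3 _ _ _ _) (h1 _ _ _ _) (h3 _ _ _ _)
  · exact cont_pe (h2 _ _ _ _) (h3 _ _ _ _) (h2 _ _ _ _) (h3 _ _ _ _)
  · exact cont_pe (h1 _ _ _ _) (h4 _ _ _ _) (h1 _ _ _ _) (h4 _ _ _ _)
  · exact cont_pe (h2 _ _ _ _) (h4 _ _ _ _) (h2 _ _ _ _) (h4 _ _ _ _)
  · exact cont_pe (h3 _ _ _ _) (h4 _ _ _ _) (h3 _ _ _ _) (h4 _ _ _ _)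

theorem cont_ex1 (L : ℕ) {u : Y → I1 L → Mt N} (hu : ∀ i, Continuous fun t => u t i) (x y z h : ℕ) :
    Continuous fun t => ex1 L (u t) 1 x y z h := by
  unfold ex1
  split_ifs
  · exact hu _
  · exact continuous_const

theorem cont_ex2 (L : ℕ) {u : Y → I2 L → Mt N} (hu : ∀ i, Continuous fun t => u t i) (x y z h : ℕ) :
    Continuous fun t => ex2 L (u t) 1 x y z h := by
  unfold ex2
  split_ifs
  · exact hu _
  · exact continuous_const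

theorem cont_ex3 (L : ℕ) {u : Y → I3 L → Mt N} (hu : ∀ i, Continuous fun t => u t i) (x y z h : ℕ) :
    Continuous fun t => ex3 L (u t) 1 x y z h := by
  unfold ex3
  split_ifs
  · exact hu _
  · exact continuous_const

end cont

theorem cont_mt (_l : Unit) : Continuous fun g : G => GG.mt g := by
  unfold GG.mt
  exact continuous_subtype_val.comp continuous_subtype_val

theorem cont_en (L : ℕ) : Continuous (fun σ : IH L → G => GG.en 0 L 0 σ) := by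
  have hσ : ∀ l : IH L, Continuous fun σ : IH L → G => GG.mt (σ l) := fun l =>
    (cont_mt ()).comp (continuous_apply l)
  simp only [en_zero]
  exact cont_wil L (fun x y z h => cont_ex1 L (fun i => hσ _) x y z h)
    (fun x y z h => cont_ex2 L (fun i => hσ _) x y z h)
    (fun x y z h => cont_ex3 L (fun i => hσ _) x y z h) (fun x y z h => continuous_const)

theorem norm_mt_sub_one (g : G) : ‖GG.mt g - 1‖ ≤ 2 * N := by
  have h1 : ‖GG.mt g‖ ^ 2 = N := norm_un_sq (un_mt g)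
  have h2 : ‖(1 : Mt N)‖ ^ 2 = N := norm_un_sq un_one
  have hN : (N : ℝ) ≤ (N : ℝ) ^ 2 := by
    rcases Nat.eq_zero_or_pos N with h | h
    · subst h; simp
    · have : (1 : ℝ) ≤ N := by exact_mod_cast h
      nlinarith
  have h3 : ‖GG.mt g‖ ≤ N := by
    apply le_of_sq_le_sq _ (Nat.cast_nonneg N)
    rw [h1]; exact hN
  have h4 : ‖(1 : Mt N)‖ ≤ N := by
    apply le_of_sq_le_sq _ (Nat.cast_nonneg N)
    rw [h2]; exact hN
  refine (norm_sub_le _ _).trans ?_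
  linarith

/-- **Task AG-EB.** -/
theorem teb : GG.S_EB := by
  intro N G L hL
  have hL0 : (0 : ℝ) ≤ L := Nat.cast_nonneg L
  have hL1 : (1 : ℝ) ≤ L := by exact_mod_cast (by omega : 1 ≤ L)
  have hcard : (Fintype.card (IH L) : ℝ) ≤ 3 * (L : ℝ) ^ 4 := by exact_mod_cast card_IH L
  refine ⟨fun σ => ?_, fun X σ => by rw [en_zero, en_zero], cont_en L, hcard⟩
  set U1 := ex1 L (fun i => GG.mt (σ (Sum.inl i))) 1 with hU1
  set U2 := ex2 L (fun i => GG.mt (σ (Sum.inr (Sum.inl i)))) 1 with hU2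
  set U3 := ex3 L (fun i => GG.mt (σ (Sum.inr (Sum.inr i)))) 1 with hU3
  have n1 : ∀ x y z h, Un (U1 x y z h) := fun x y z h => ex1_un L (fun i => σ (Sum.inl i)) x y z h
  have n2 : ∀ x y z h, Un (U2 x y z h) := fun x y z h => ex2_un L (fun i => σ (Sum.inr (Sum.inl i))) x y z h
  have n3 : ∀ x y z h, Un (U3 x y z h) := fun x y z h => ex3_un L (fun i => σ (Sum.inr (Sum.inr i))) x y z h
  have m1 : ∀ x y z h, ‖U1 x y z h - 1‖ ≤ GG.sz σ := ex1_sz σ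
  have m2 : ∀ x y z h, ‖U2 x y z h - 1‖ ≤ GG.sz σ := ex2_sz σ
  have m3 : ∀ x y z h, ‖U3 x y z h - 1‖ ≤ GG.sz σ := ex3_sz σ
  have m4 : ‖(1 : Mt N) - 1‖ ≤ GG.sz σ := by rw [sub_self, norm_zero]; exact sz_nonneg σ
  have n4 : Un (1 : Mt N) := un_one
  have hen : GG.en 0 L 0 σ = GG.wil L U1 U2 U3 (fun _ _ _ _ => 1) := en_zero 0 L σ
  have p12 : 0 ≤ s12 L (fun x y z h => GG.pe (U1 x y z h) (U2 (x + 1) y z h) (U1 x (y + 1) z h) (U2 x y z h)) :=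
    quad_nonneg fun x y z h => pe_nonneg (n1 _ _ _ _) (n2 _ _ _ _) (n1 _ _ _ _) (n2 _ _ _ _)
  have p13 : 0 ≤ s13 L (fun x y z h => GG.pe (U1 x y z h) (U3 (x + 1) y z h) (U1 x y (z + 1) h) (U3 x y z h)) :=
    quad_nonneg fun x y z h => pe_nonneg (n1 _ _ _ _) (n3 _ _ _ _) (n1 _ _ _ _) (n3 _ _ _ _)
  have p23 : 0 ≤ s23 L (fun x y z h => GG.pe (U2 x y z h) (U3 x (y + 1) z h) (U2 x y (z + 1) h) (U3 x y z h)) :=
    quad_nonneg fun x y z h => pe_nonneg (n2 _ _ _ _) (n3 _ _ _ _) (n2 _ _ _ _) (n3 _ _ _ _)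
  have p14 : 0 ≤ s14 L (fun x y z h => GG.pe (U1 x y z h) 1 (U1 x y z (h + 1)) 1) :=
    quad_nonneg fun x y z h => pe_nonneg (n1 _ _ _ _) n4 (n1 _ _ _ _) n4
  have p24 : 0 ≤ s24 L (fun x y z h => GG.pe (U2 x y z h) 1 (U2 x y z (h + 1)) 1) :=
    quad_nonneg fun x y z h => pe_nonneg (n2 _ _ _ _) n4 (n2 _ _ _ _) n4
  have p34 : 0 ≤ s34 L (fun x y z h => GG.pe (U3 x y z h) 1 (U3 x y z (h + 1)) 1) :=
    quad_nonneg fun x y z h => pe_nonneg (n3 _ _ _ _) n4 (n3 _ _ _ _) n4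
  have hwil : GG.en 0 L 0 σ =
      s12 L (fun x y z h => GG.pe (U1 x y z h) (U2 (x + 1) y z h) (U1 x (y + 1) z h) (U2 x y z h)) +
      s13 L (fun x y z h => GG.pe (U1 x y z h) (U3 (x + 1) y z h) (U1 x y (z + 1) h) (U3 x y z h)) +
      s23 L (fun x y z h => GG.pe (U2 x y z h) (U3 x (y + 1) z h) (U2 x y (z + 1) h) (U3 x y z h)) +
      s14 L (fun x y z h => GG.pe (U1 x y z h) 1 (U1 x y z (h + 1)) 1) +
      s24 L (fun x y z h => GG.pe (U2 x y z h) 1 (U2 x y z (h + 1)) 1) +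
      s34 L (fun x y z h => GG.pe (U3 x y z h) 1 (U3 x y z (h + 1)) 1) := by
    rw [hen]
    rfl
  have hc1 : (Finset.range L).card ≤ L := by rw [card_range]
  have hc2 : (Finset.Ico 1 L).card ≤ L := by rw [Nat.card_Ico]; omega
  have hc3 : (Finset.Icc 1 L).card ≤ L := by rw [Nat.card_Icc]; omega
  have hM : 0 ≤ 8 * GG.sz σ ^ 2 := by positivity
  refine ⟨?_, ?_, ?_, ?_⟩
  · rw [hwil]
    exact add_nonneg (add_nonneg (add_nonneg (add_nonneg (add_nonneg p12 p13) p23) p14) p24) p34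
  · -- coercivity
    have v1 := vert1 L (fun i => GG.mt (σ (Sum.inl i)))
    have v2 := vert2 L (fun i => GG.mt (σ (Sum.inr (Sum.inl i))))
    have v3 := vert3 L (fun i => GG.mt (σ (Sum.inr (Sum.inr i))))
    have w1 : s14 L (fun x y z h => ‖U1 x y z (h + 1) - U1 x y z h‖ ^ 2) =
        2 * s14 L (fun x y z h => GG.pe (U1 x y z h) 1 (U1 x y z (h + 1)) 1) := by
      rw [← s14_two]
      congr 1
      funext x y z h
      rw [pe_vert (n1 _ _ _ _) (n1 _ _ _ _)]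
      ring
    have w2 : s24 L (fun x y z h => ‖U2 x y z (h + 1) - U2 x y z h‖ ^ 2) =
        2 * s24 L (fun x y z h => GG.pe (U2 x y z h) 1 (U2 x y z (h + 1)) 1) := by
      rw [← s24_two]
      congr 1
      funext x y z h
      rw [pe_vert (n2 _ _ _ _) (n2 _ _ _ _)]
      ring
    have w3 : s34 L (fun x y z h => ‖U3 x y z (h + 1) - U3 x y z h‖ ^ 2) =
        2 * s34 L (fun x y z h => GG.pe (U3 x y z h) 1 (U3 x y z (h + 1)) 1) := by
      rw [← s34_two]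
      congr 1
      funext x y z h
      rw [pe_vert (n3 _ _ _ _) (n3 _ _ _ _)]
      ring
    rw [← hU1, w1] at v1
    rw [← hU2, w2] at v2
    rw [← hU3, w3] at v3
    have hsum : ∑ l, ‖GG.mt (σ l) - 1‖ ^ 2 ≤ (L : ℝ) ^ 2 * (2 * GG.en 0 L 0 σ) := by
      rw [Fintype.sum_sum_type, Fintype.sum_sum_type, hwil]
      have hL2 : 0 ≤ (L : ℝ) ^ 2 := by positivity
      nlinarith [mul_nonneg hL2 p12, mul_nonneg hL2 p13, mul_nonneg hL2 p23]
    have hcs : GG.sz σ ^ 2 ≤ Fintype.card (IH L) * ∑ l, ‖GG.mt (σ l) - 1‖ ^ 2 := by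
      have := sq_sum_le_card_mul_sum_sq (s := (univ : Finset (IH L))) (f := fun l => ‖GG.mt (σ l) - 1‖)
      rwa [card_univ] at this
    have hs0 : 0 ≤ ∑ l, ‖GG.mt (σ l) - 1‖ ^ 2 := sum_nonneg fun _ _ => sq_nonneg _
    calc GG.sz σ ^ 2 ≤ Fintype.card (IH L) * ∑ l, ‖GG.mt (σ l) - 1‖ ^ 2 := hcs
      _ ≤ (3 * (L : ℝ) ^ 4) * ((L : ℝ) ^ 2 * (2 * GG.en 0 L 0 σ)) := mul_le_mul hcard hsum hs0 (by positivity)
      _ = 6 * (L : ℝ) ^ 6 * GG.en 0 L 0 σ := by ring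
  · -- upper bound
    have b12 : s12 L (fun x y z h => GG.pe (U1 x y z h) (U2 (x + 1) y z h) (U1 x (y + 1) z h) (U2 x y z h)) ≤
        (L : ℝ) ^ 4 * (8 * GG.sz σ ^ 2) := quad_le hc1 hc1 hc2 hc3 hM fun x y z h =>
      pe_le (n1 _ _ _ _) (n2 _ _ _ _) (n1 _ _ _ _) (n2 _ _ _ _) (m1 _ _ _ _) (m2 _ _ _ _) (m1 _ _ _ _) (m2 _ _ _ _)
    have b13 : s13 L (fun x y z h => GG.pe (U1 x y z h) (U3 (x + 1) y z h) (U1 x y (z + 1) h) (U3 x y z h)) ≤
        (L : ℝ) ^ 4 * (8 * GG.sz σ ^ 2) := quad_le hc1 hc2 hc1 hc3 hM fun x y z h =>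
      pe_le (n1 _ _ _ _) (n3 _ _ _ _) (n1 _ _ _ _) (n3 _ _ _ _) (m1 _ _ _ _) (m3 _ _ _ _) (m1 _ _ _ _) (m3 _ _ _ _)
    have b23 : s23 L (fun x y z h => GG.pe (U2 x y z h) (U3 x (y + 1) z h) (U2 x y (z + 1) h) (U3 x y z h)) ≤
        (L : ℝ) ^ 4 * (8 * GG.sz σ ^ 2) := quad_le hc2 hc1 hc1 hc3 hM fun x y z h =>
      pe_le (n2 _ _ _ _) (n3 _ _ _ _) (n2 _ _ _ _) (n3 _ _ _ _) (m2 _ _ _ _) (m3 _ _ _ _) (m2 _ _ _ _) (m3 _ _ _ _)
    have b14 : s14 L (fun x y z h => GG.pe (U1 x y z h) 1 (U1 x y z (h + 1)) 1) ≤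
        (L : ℝ) ^ 4 * (8 * GG.sz σ ^ 2) := quad_le hc1 hc2 hc2 hc1 hM fun x y z h =>
      pe_le (n1 _ _ _ _) n4 (n1 _ _ _ _) n4 (m1 _ _ _ _) m4 (m1 _ _ _ _) m4
    have b24 : s24 L (fun x y z h => GG.pe (U2 x y z h) 1 (U2 x y z (h + 1)) 1) ≤
        (L : ℝ) ^ 4 * (8 * GG.sz σ ^ 2) := quad_le hc2 hc1 hc2 hc1 hM fun x y z h =>
      pe_le (n2 _ _ _ _) n4 (n2 _ _ _ _) n4 (m2 _ _ _ _) m4 (m2 _ _ _ _) m4
    have b34 : s34 L (fun x y z h => GG.pe (U3 x y z h) 1 (U3 x y z (h + 1)) 1) ≤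
        (L : ℝ) ^ 4 * (8 * GG.sz σ ^ 2) := quad_le hc2 hc2 hc1 hc1 hM fun x y z h =>
      pe_le (n3 _ _ _ _) n4 (n3 _ _ _ _) n4 (m3 _ _ _ _) m4 (m3 _ _ _ _) m4
    have hq : 0 ≤ (L : ℝ) ^ 4 * GG.sz σ ^ 2 := by positivity
    rw [hwil]
    linarith
  · -- trivial bound
    calc GG.sz σ ≤ ∑ _l : IH L, (2 * N : ℝ) := sum_le_sum fun l _ => norm_mt_sub_one (σ l)
      _ = Fintype.card (IH L) * (2 * N : ℝ) := by rw [sum_const, card_univ, nsmul_eq_mul]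
      _ ≤ (3 * (L : ℝ) ^ 4) * (2 * N : ℝ) := mul_le_mul_of_nonneg_right hcard (by positivity)
      _ = 6 * N * (L : ℝ) ^ 4 := by ring

end Pool.Agent.H28.AG
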